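import Pool.Agent.H34.RF

namespace Pool.Agent.Results.MP_e112c8_lc.Levels
open Pool.Agent.H34.WeakP

theorem result :
    (¬ ∀ n : ℕ, 0 < n → wf (n + 1) = {p | ∃ (f : ℕ → Ultrafilter ℕ) (u : Ultrafilter ℕ),
      f.Injective ∧ IsDiscrete (Set.range f) ∧ u ∈ wf n ∧ (∀ i, f i ∈ wf n) ∧ p = u.bind f}) ∧
    ∀ (f : ℕ → Ultrafilter ℕ) (u : Ultrafilter ℕ), f.Injective → IsDiscrete (Set.range f) →
      DWeakP u → (∀ i, DWeakP (f i)) → ∃ γ ≤ (2 : Ordinal), u.bind f ∈ wf γ :=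
  ⟨counter, fun _ _ a b c d => (disc_iff.1 ⟨a, b⟩).elim fun _ q =>
    (rk2 q c.min fun i => (d i).min).elim fun h r => ⟨_, r, h, rfl⟩⟩

end Pool.Agent.Results.MP_e112c8_lc.Levels
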